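import Mathlib
import Pool.Agent.H68.AH.Defs
import Pool.Agent.H24.GP.Pe

/-!
# MP_103a5c_AH: the points `t` with two close zeros nearby are rare
-/

open MeasureTheory Set Filter Topology
open scoped Real ContDiff ComplexConjugate

namespace Pool.Agent.H5.AH

open Pool.Agent Pool.Agent.H6 Pool.Agent.H14.GP Pool.Agent.H24.HF Pool.Agent.H67.HF Pool.Agent.H68.AH

/-- the number of points which are multiple or have a neighbour at distance `≤ r` -/
theorem bad_card {ι : Type*} [DecidableEq ι] (F : Finset ι) (γ w : ι → ℝ) (hw1 : ∀ i ∈ F, 1 ≤ w i) {r : ℝ}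
    (hr : 0 ≤ r) (Bd : Finset ι) (hB : Bd ⊆ F)
    (h : ∀ i ∈ Bd, 2 ≤ w i ∨ ∃ j ∈ F, j ≠ i ∧ |γ i - γ j| ≤ r) :
    (Bd.card : ℝ) ≤ 2 * ((∑ i ∈ F, ∑ j ∈ F, if 0 ≤ γ i - γ j ∧ γ i - γ j ≤ r then w i * w j else 0)
      - ∑ i ∈ F, w i) := by
  have hnn : ∀ i ∈ F, ∀ j ∈ F, ∀ (q : Prop) [Decidable q], 0 ≤ (if q then w i * w j else 0) := by
    intro i hi j hj q _
    split_ifs
    · have := hw1 i hi; have := hw1 j hj; positivity
    · exact le_rfl
  set a : ι → ℝ := fun i => (∑ j ∈ F, if 0 ≤ γ i - γ j ∧ γ i - γ j ≤ r then w i * w j else 0) - w i with ha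
  set a' : ι → ℝ := fun i => (∑ j ∈ F, if 0 ≤ γ j - γ i ∧ γ j - γ i ≤ r then w j * w i else 0) - w i with ha'
  have hself : (0 : ℝ) ≤ 0 ∧ (0 : ℝ) ≤ r := ⟨le_rfl, hr⟩
  have hdiag : ∀ i ∈ F, w i * w i ≤ ∑ j ∈ F, if 0 ≤ γ i - γ j ∧ γ i - γ j ≤ r then w i * w j else 0 := by
    intro i hi
    refine le_trans ?_ (Finset.single_le_sum (fun j hj => hnn i hi j hj _) hi)
    rw [sub_self, if_pos hself]
  have hdiag' : ∀ i ∈ F, w i * w i ≤ ∑ j ∈ F, if 0 ≤ γ j - γ i ∧ γ j - γ i ≤ r then w j * w i else 0 := by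
    intro i hi
    refine le_trans ?_ (Finset.single_le_sum (fun j hj => hnn j hj i hi _) hi)
    rw [sub_self, if_pos hself]
  have hsq : ∀ i ∈ F, w i ≤ w i * w i := fun i hi => by nlinarith [hw1 i hi]
  have ha0 : ∀ i ∈ F, 0 ≤ a i := fun i hi => by
    have h1 := hdiag i hi
    have h2 := hsq i hi
    rw [ha]
    show 0 ≤ _ - w i
    linarith
  have ha0' : ∀ i ∈ F, 0 ≤ a' i := fun i hi => by
    have h1 := hdiag' i hi
    have h2 := hsq i hi
    rw [ha']
    show 0 ≤ _ - w i
    linarith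
  have hone : ∀ i ∈ Bd, 1 ≤ a i + a' i := by
    intro i hi
    have hiF := hB hi
    rcases h i hi with h1 | ⟨j, hj, hji, hd⟩
    · have h2 := hdiag i hiF
      have h3 := ha0' i hiF
      have h4 : 1 ≤ a i := by
        rw [ha]
        show 1 ≤ _ - w i
        nlinarith
      linarith
    · have hwi := hw1 i hiF
      have hwj := hw1 j hj
      rw [abs_le] at hd
      rcases le_total (γ j) (γ i) with hle | hle
      · have h4 : ∑ k ∈ ({i, j} : Finset ι), (if 0 ≤ γ i - γ k ∧ γ i - γ k ≤ r then w i * w k else 0) ≤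
            ∑ k ∈ F, if 0 ≤ γ i - γ k ∧ γ i - γ k ≤ r then w i * w k else 0 := by
          apply Finset.sum_le_sum_of_subset_of_nonneg
          · intro x hx
            simp only [Finset.mem_insert, Finset.mem_singleton] at hx
            rcases hx with rfl | rfl
            · exact hiF
            · exact hj
          · intro k hk _
            exact hnn i hiF k hk _
        rw [Finset.sum_pair hji.symm, sub_self, if_pos hself, if_pos ⟨by linarith, by linarith⟩] at h4
        have h5 := ha0' i hiF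
        have h6 : 1 ≤ a i := by
          rw [ha]
          show 1 ≤ _ - w i
          nlinarith
        linarith
      · have h4 : ∑ k ∈ ({i, j} : Finset ι), (if 0 ≤ γ k - γ i ∧ γ k - γ i ≤ r then w k * w i else 0) ≤
            ∑ k ∈ F, if 0 ≤ γ k - γ i ∧ γ k - γ i ≤ r then w k * w i else 0 := by
          apply Finset.sum_le_sum_of_subset_of_nonneg
          · intro x hx
            simp only [Finset.mem_insert, Finset.mem_singleton] at hx
            rcases hx with rfl | rfl
            · exact hiF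
            · exact hj
          · intro k hk _
            exact hnn k hk i hiF _
        rw [Finset.sum_pair hji.symm, sub_self, if_pos hself, if_pos ⟨by linarith, by linarith⟩] at h4
        have h5 := ha0 i hiF
        have h6 : 1 ≤ a' i := by
          rw [ha']
          show 1 ≤ _ - w i
          nlinarith
        linarith
  have hsum : ∑ i ∈ F, (a i + a' i) = 2 * ((∑ i ∈ F, ∑ j ∈ F, if 0 ≤ γ i - γ j ∧ γ i - γ j ≤ r then w i * w j else 0)
      - ∑ i ∈ F, w i) := by
    rw [Finset.sum_add_distrib, ha, ha', Finset.sum_sub_distrib, Finset.sum_sub_distrib]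
    rw [Finset.sum_comm (f := fun i j => if 0 ≤ γ j - γ i ∧ γ j - γ i ≤ r then w j * w i else 0)]
    ring
  calc (Bd.card : ℝ) = ∑ i ∈ Bd, (1 : ℝ) := by simp
    _ ≤ ∑ i ∈ Bd, (a i + a' i) := Finset.sum_le_sum hone
    _ ≤ ∑ i ∈ F, (a i + a' i) := Finset.sum_le_sum_of_subset_of_nonneg hB fun i hi _ => by
        have := ha0 i hi; have := ha0' i hi; linarith
    _ = _ := hsum

theorem gZ_injective : Function.Injective gZ := fun _ _ h => Subtype.ext h

theorem xx_sub (L t : ℝ) (i j : PC.Z) : xx gZ L t i - xx gZ L t j = L * (gZ j - gZ i) / (2 * π) := by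
  unfold xx
  ring

/-- The points with two zeros at distance `< b` (or a multiple zero) within distance `Q` are rare. -/
theorem rare_sep (RH : RiemannHypothesis) {FF : Filter ℝ} (hF : Hyp FF) {b Q : ℝ} (hb : 0 < b) (hb2 : b < 1 / 2)
    (hQ : 0 < Q) {α β p : ℝ} (hα : 0 < α) (hβ : β < 1) (hp : 0 < p) :
    Rare FF α β p (fun T => {t | ¬ Sep gZ wZ b Q (Real.log T) t}) := by
  classical
  obtain ⟨CR, I⟩ := exists_inputs RH
  have hpi := Real.pi_pos
  have hlog : Tendsto Real.log FF atTop := Real.tendsto_log_atTop.mono_left hF.le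
  -- the excess is small
  have h1 := hF.tend b hb hb2
  have h2 := (I.count).mono_left hF.le
  have h3 : Tendsto (fun T => PC.pairCount T 0 b / PC.norm T - (1 / PC.norm T) * ∑ i ∈ FZ T, wZ i) FF (𝓝 (1 - 1)) :=
    h1.sub h2
  rw [sub_self] at h3
  have hε : 0 < p / (8 * Q) := by positivity
  have E1 := h3.eventually (gt_mem_nhds hε)
  have E2 : ∀ᶠ T in FF, 1 ≤ Real.log T := hlog.eventually_ge_atTop 1
  have E3 : ∀ᶠ T in FF, 2 * π * Q / α < T := (eventually_gt_atTop _).filter_mono hF.le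
  have E4 : ∀ᶠ T in FF, 2 * π * Q / (1 - β) < T := (eventually_gt_atTop _).filter_mono hF.le
  have E5 : ∀ᶠ T in FF, (1 : ℝ) < T := (eventually_gt_atTop _).filter_mono hF.le
  filter_upwards [E1, E2, E3, E4, E5] with T hT1 hL1 hTα hTβ hT
  have hT0 : 0 < T := by linarith
  set L := Real.log T with hLdef
  have hL : 0 < L := by linarith
  have hnorm : 0 < PC.norm T := by unfold PC.norm; rw [← hLdef]; positivity
  rw [div_lt_iff₀ hα] at hTα
  rw [div_lt_iff₀ (by linarith)] at hTβ
  set r : ℝ := 2 * π * b / L with hr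
  have hr0 : 0 < r := by positivity
  set R : ℝ := 2 * π * Q / L with hR
  have hR0 : 0 < R := by positivity
  have hRle : R ≤ 2 * π * Q := div_le_self (by positivity) hL1
  set Bd : Finset PC.Z := (FZ T).filter (fun i => 2 ≤ wZ i ∨ ∃ j ∈ FZ T, j ≠ i ∧ |gZ i - gZ j| ≤ r) with hBd
  have hcard := bad_card (FZ T) gZ wZ (fun i _ => one_le_wZ i) hr0.le Bd (Finset.filter_subset _ _)
    (fun i hi => (Finset.mem_filter.1 hi).2)
  -- near zeros are in `FZ T`
  have hnear : ∀ t ∈ Icc (α * T) (β * T), ∀ i, |xx gZ L t i| ≤ Q → i ∈ FZ T ∧ |t - gZ i| ≤ R := by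
    intro t ht i hi
    have h4 : |t - gZ i| ≤ R := by
      unfold xx at hi
      rw [abs_div, abs_mul, abs_of_pos hL, abs_of_pos (show (0 : ℝ) < 2 * π by positivity),
        div_le_iff₀ (by positivity)] at hi
      rw [hR, le_div_iff₀ hL]
      linarith
    refine ⟨?_, h4⟩
    rw [mem_FZ]
    rw [abs_le] at h4
    constructor
    · nlinarith [ht.1, h4.2]
    · nlinarith [ht.2, h4.1]
  have hsub : {t | ¬ Sep gZ wZ b Q L t} ∩ Icc (α * T) (β * T) ⊆ ⋃ i ∈ Bd, Icc (gZ i - R) (gZ i + R) := by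
    rintro t ⟨hs, ht⟩
    have key : ∃ i, |xx gZ L t i| ≤ Q ∧ (2 ≤ wZ i ∨ ∃ j ∈ FZ T, j ≠ i ∧ |gZ i - gZ j| ≤ r) := by
      by_contra hcon
      push Not at hcon
      apply hs
      constructor
      · intro i hi
        have h5 := (hcon i hi).1
        have h6 : PC.m i < 2 := by
          unfold wZ at h5
          exact_mod_cast h5
        unfold wZ
        exact_mod_cast (by omega : PC.m i ≤ 1)
      · intro i j hij hi hj
        have h5 := (hcon i hi).2 j (hnear t ht j hj).1 hij.symm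
        rw [xx_sub, abs_div, abs_mul, abs_of_pos hL, abs_of_pos (show (0 : ℝ) < 2 * π by positivity),
          le_div_iff₀ (by positivity), abs_sub_comm]
        rw [hr, div_lt_iff₀ hL] at h5
        linarith
    obtain ⟨i, hi, hbad⟩ := key
    obtain ⟨h5, h6⟩ := hnear t ht i hi
    rw [mem_iUnion₂]
    refine ⟨i, Finset.mem_filter.2 ⟨h5, hbad⟩, ?_⟩
    rw [abs_le] at h6
    exact ⟨by linarith [h6.2], by linarith [h6.1]⟩
  have hvol : volume.real ({t | ¬ Sep gZ wZ b Q L t} ∩ Icc (α * T) (β * T)) ≤ Bd.card * (2 * R) := by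
    refine (measureReal_mono hsub ?_).trans ?_
    · refine ne_of_lt ((measure_biUnion_finset_le _ _).trans_lt ?_)
      exact ENNReal.sum_lt_top.2 fun i _ => by
        rw [Real.volume_Icc]
        exact ENNReal.ofReal_lt_top
    · refine (measureReal_biUnion_finset_le _ _).trans ?_
      rw [← nsmul_eq_mul, ← Finset.sum_const]
      refine Finset.sum_le_sum fun i _ => ?_
      rw [Measure.real, Real.volume_Icc, ENNReal.toReal_ofReal (by linarith)]
      linarith
  refine hvol.trans ?_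
  have hpc : (∑ i ∈ FZ T, ∑ j ∈ FZ T, if 0 ≤ gZ i - gZ j ∧ gZ i - gZ j ≤ r then wZ i * wZ j else 0) =
      PC.pairCount T 0 b := by
    rw [pairCount_eq RH]
    refine Finset.sum_congr rfl fun i _ => Finset.sum_congr rfl fun j _ => ?_
    rw [mul_zero, zero_div]
  rw [hpc] at hcard
  have h7 : PC.pairCount T 0 b - ∑ i ∈ FZ T, wZ i ≤ p / (8 * Q) * PC.norm T := by
    have h8 : PC.pairCount T 0 b / PC.norm T - (1 / PC.norm T) * ∑ i ∈ FZ T, wZ i =
        (PC.pairCount T 0 b - ∑ i ∈ FZ T, wZ i) / PC.norm T := by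
      field_simp
    rw [h8, div_lt_iff₀ hnorm] at hT1
    exact hT1.le
  calc (Bd.card : ℝ) * (2 * R) ≤ (2 * (p / (8 * Q) * PC.norm T)) * (2 * R) := by
        apply mul_le_mul_of_nonneg_right _ (by positivity)
        linarith
    _ = p * T / 2 := by
        unfold PC.norm
        rw [hR, ← hLdef]
        field_simp
        ring
    _ ≤ p * T := by
        have : 0 < p * T := by positivity
        linarith

end Pool.Agent.H5.AH
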