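import Mathlib
import Pool.Agent.H68.AH.Defs
import Pool.Agent.H67.HF.Br
import Pool.Agent.H5.HF.Psi
import Pool.Agent.H26.GH.E

/-!
# MP_103a5c_AH, (T1): without zeros in the window the real part of `n(t)` is small, for most `t`
-/

open MeasureTheory Set Filter Topology
open scoped Real ContDiff ComplexConjugate

namespace Pool.Agent.H5.AH

open Pool.Agent Pool.Agent.H6 Pool.Agent.H14.GP Pool.Agent.H24.HF Pool.Agent.H67.HF Pool.Agent.H68.AH Pool.Agent.H26.GH

theorem win2_dil {χ₁ : ℝ → ℝ} (hχ : Win2 χ₁ 1) {D : ℝ} (hD : 1 ≤ D) : Win2 (H68.AH.win χ₁ D) D where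
  D_pos := hD
  smooth := hχ.smooth.comp (contDiff_id.div_const D)
  even u := by
    unfold H68.AH.win
    rw [neg_div, hχ.even]
  supp u hu := by
    unfold H68.AH.win
    apply hχ.supp
    rw [abs_div, abs_of_pos (by linarith : 0 < D), le_div_iff₀ (by linarith), one_mul]
    exact hu
  zero := by
    unfold H68.AH.win
    rw [zero_div, hχ.zero]
  nonneg u := hχ.nonneg _
  le_one u := hχ.le_one _
  pos x := by
    have : cosT (H68.AH.win χ₁ D) x = D * cosT χ₁ (D * x) := cosT_dilate χ₁ (by linarith) x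
    rw [this]
    exact mul_nonneg (by linarith) (hχ.pos _)

theorem cosT_win_dil (χ₁ : ℝ → ℝ) {D : ℝ} (hD : 0 < D) (x : ℝ) :
    cosT (H68.AH.win χ₁ D) x = D * cosT χ₁ (D * x) := cosT_dilate χ₁ hD x

/-- the Cauchy density -/
theorem int_cauchy {c : ℝ} (hc : 0 < c) (d : ℝ) : Integrable (fun t : ℝ => (1 + (c * t - d) ^ 2)⁻¹) ∧
    ∫ t : ℝ, (1 + (c * t - d) ^ 2)⁻¹ = π / c := by
  have h0 : Integrable (fun x : ℝ => (1 + (x - d) ^ 2)⁻¹) := integrable_inv_one_add_sq.comp_sub_right d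
  constructor
  · exact h0.comp_mul_left' hc.ne'
  · rw [Measure.integral_comp_mul_left (fun x : ℝ => (1 + (x - d) ^ 2)⁻¹) c,
      integral_sub_right_eq_self (fun x : ℝ => (1 + x ^ 2)⁻¹) d, integral_univ_inv_one_add_sq,
      abs_of_pos (by positivity : 0 < c⁻¹), smul_eq_mul]
    field_simp

/-- the smooth indicator function of the window is small outside the window -/
theorem psi_tail {χ₁ : ℝ → ℝ} (hχ : Win2 χ₁ 1) : ∃ C₀ : ℝ, 0 < C₀ ∧ ∀ D : ℝ, 1 ≤ D → ∀ δ : ℝ, 0 < δ → ∀ x : ℝ,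
    δ / 2 ≤ |x| → psi (H68.AH.win χ₁ D) δ x ≤
      C₀ * ((1 + (D * (x - δ / 2)) ^ 2)⁻¹ + (1 + (D * (x + δ / 2)) ^ 2)⁻¹) := by
  obtain ⟨C, hC0, hC⟩ := Br_decay hχ.nice 2
  have hpi := Real.pi_pos
  refine ⟨(C + 1) * π, by positivity, fun D hD δ hδ x hx => ?_⟩
  have hD0 : 0 < D := by linarith
  rw [psi_eq_win (win2_dil hχ hD) hδ]
  unfold H98.HF.win
  obtain ⟨s, hs⟩ : ∃ s : ℝ, s = |x| - δ / 2 := ⟨_, rfl⟩
  have hs0 : 0 ≤ s := by rw [hs]; linarith
  have hpt : ∀ y ∈ Icc (x - δ / 2) (x + δ / 2), cosT (H68.AH.win χ₁ D) y ≤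
      ((C + 1) * D * (1 + (D * s) ^ 2)⁻¹) * (1 + (D * y - 0) ^ 2)⁻¹ := by
    intro y hy
    have hys : s ≤ |y| := by
      rw [hs]
      rcases abs_cases x with h | h
      · rw [h.1]
        exact le_trans (by linarith [hy.1]) (le_abs_self y)
      · rw [h.1]
        exact le_trans (by linarith [hy.2]) (neg_le_abs y)
    rw [cosT_win_dil χ₁ hD0, sub_zero]
    have h1 : cosT χ₁ (D * y) ≤ C / (1 + (D * y) ^ 2) ^ 2 := (le_abs_self _).trans (hC _)
    have h2 : (1 + (D * y) ^ 2)⁻¹ ≤ (1 + (D * s) ^ 2)⁻¹ := by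
      apply inv_anti₀ (by positivity)
      have h3 : (D * s) ^ 2 ≤ (D * y) ^ 2 := by
        rw [← sq_abs (D * y), abs_mul, abs_of_pos hD0]
        exact pow_le_pow_left₀ (by positivity) (mul_le_mul_of_nonneg_left hys hD0.le) 2
      linarith
    calc D * cosT χ₁ (D * y) ≤ D * (C / (1 + (D * y) ^ 2) ^ 2) := mul_le_mul_of_nonneg_left h1 hD0.le
      _ = (C * D * (1 + (D * y) ^ 2)⁻¹) * (1 + (D * y) ^ 2)⁻¹ := by
          field_simp
      _ ≤ ((C + 1) * D * (1 + (D * s) ^ 2)⁻¹) * (1 + (D * y) ^ 2)⁻¹ := by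
          apply mul_le_mul_of_nonneg_right _ (by positivity)
          apply mul_le_mul _ h2 (by positivity) (by positivity)
          nlinarith
  have hci := int_cauchy hD0 0
  have hk := ker_of_win2 (win2_dil hχ hD)
  have h4 : ∫ y in (x - δ / 2)..(x + δ / 2), cosT (H68.AH.win χ₁ D) y ≤
      ∫ y in (x - δ / 2)..(x + δ / 2), ((C + 1) * D * (1 + (D * s) ^ 2)⁻¹) * (1 + (D * y - 0) ^ 2)⁻¹ := by
    apply intervalIntegral.integral_mono_on (by linarith) (hk.cont.intervalIntegrable _ _)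
      ((hci.1.const_mul _).intervalIntegrable) hpt
  have h5 : ∫ y in (x - δ / 2)..(x + δ / 2), ((C + 1) * D * (1 + (D * s) ^ 2)⁻¹) * (1 + (D * y - 0) ^ 2)⁻¹ ≤
      ∫ y, ((C + 1) * D * (1 + (D * s) ^ 2)⁻¹) * (1 + (D * y - 0) ^ 2)⁻¹ := by
    rw [intervalIntegral.integral_of_le (by linarith)]
    exact setIntegral_le_integral (hci.1.const_mul _) (ae_of_all _ fun y => by positivity)
  rw [integral_const_mul, hci.2] at h5
  have h6 : (1 + (D * s) ^ 2)⁻¹ ≤ (1 + (D * (x - δ / 2)) ^ 2)⁻¹ + (1 + (D * (x + δ / 2)) ^ 2)⁻¹ := by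
    have p1 : 0 ≤ (1 + (D * (x - δ / 2)) ^ 2)⁻¹ := by positivity
    have p2 : 0 ≤ (1 + (D * (x + δ / 2)) ^ 2)⁻¹ := by positivity
    rcases abs_cases x with h | h
    · rw [hs, h.1]; linarith
    · rw [hs, h.1]
      have : (D * (-x - δ / 2)) ^ 2 = (D * (x + δ / 2)) ^ 2 := by ring
      rw [this]; linarith
  calc _ ≤ _ := h4.trans h5
    _ = ((C + 1) * π) * (1 + (D * s) ^ 2)⁻¹ := by field_simp
    _ ≤ _ := mul_le_mul_of_nonneg_left h6 (by positivity)

/-- a weight which is at least one on `[α, β]` -/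
theorem wgt_ge {α β : ℝ} (hα : 0 < α) (hαβ : α < β) : ∃ v : ℝ → ℝ, Wgt v ∧ ∀ x ∈ Icc α β, 1 ≤ v x := by
  let b : ContDiffBump ((α + β) / 2) := ⟨(β - α) / 2, (β - α) / 2 + α / 2, by linarith, by linarith⟩
  refine ⟨b, ⟨b.contDiff, ⟨α / 2, β + α / 2, by linarith, by linarith, fun x hx => ?_⟩, fun x => b.nonneg⟩, fun x hx => ?_⟩
  · apply b.zero_of_le_dist
    rw [Real.dist_eq]
    show (β - α) / 2 + α / 2 ≤ |x - (α + β) / 2|
    by_contra h
    rw [not_le, abs_lt] at h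
    exact hx ⟨by linarith, by linarith⟩
  · have : b x = 1 := by
      apply b.one_of_mem_closedBall
      rw [Metric.mem_closedBall, Real.dist_eq]
      show |x - (α + β) / 2| ≤ (β - α) / 2
      rw [abs_le]
      exact ⟨by linarith [hx.1], by linarith [hx.2]⟩
    rw [this]

/-- Markov's inequality for the weighted mean -/
theorem rare_of_EE {v : ℝ → ℝ} (hv : Wgt v) {α β : ℝ} (h1 : ∀ x ∈ Icc α β, 1 ≤ v x) {f : ℝ → ℝ → ℝ}
    (hc : ∀ᶠ T in atTop, Continuous (f T)) (h0 : ∀ T t, 0 ≤ f T t)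
    (hf : Tendsto (fun T => EE v T (f T)) atTop (𝓝 0)) {c p : ℝ} (hcp : 0 < c) (hp : 0 < p) :
    Rare atTop α β p (fun T => {t | c < f T t}) := by
  have E1 := hf.eventually (gt_mem_nhds (show 0 < c * p by positivity))
  filter_upwards [E1, hc, eventually_gt_atTop 0] with T hT hcT hT0
  have hvc : Continuous v := hv.smooth.continuous
  have hint : Integrable (fun t => v (t / T) * f T t) := by
    have hcc : Continuous (fun t => v (t / T) * f T t) := by fun_prop
    exact hcc.integrable_of_hasCompactSupport (wscs hv hT0).mul_right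
  have hset : MeasurableSet ({t | c < f T t} ∩ Icc (α * T) (β * T)) :=
    ((isOpen_lt continuous_const hcT).measurableSet).inter measurableSet_Icc
  have h2 : c * volume.real ({t | c < f T t} ∩ Icc (α * T) (β * T)) ≤ ∫ t, v (t / T) * f T t := by
    have h3 : c * volume.real ({t | c < f T t} ∩ Icc (α * T) (β * T)) =
        ∫ t, ({t | c < f T t} ∩ Icc (α * T) (β * T)).indicator (fun _ => c) t := by
      rw [integral_indicator hset, setIntegral_const, smul_eq_mul, mul_comm]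
    rw [h3]
    apply integral_mono
    · rw [integrable_indicator_iff hset]
      exact integrableOn_const (ne_top_of_le_ne_top (by rw [Real.volume_Icc]; exact ENNReal.ofReal_ne_top)
        (measure_mono inter_subset_right))
    · exact hint
    · intro t
      by_cases ht : t ∈ {t | c < f T t} ∩ Icc (α * T) (β * T)
      · rw [indicator_of_mem ht]
        have h4 : c < f T t := ht.1
        have h5 : t / T ∈ Icc α β := by
          constructor
          · rw [le_div_iff₀ hT0]; exact ht.2.1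
          · rw [div_le_iff₀ hT0]; exact ht.2.2
        have h6 := h1 _ h5
        show c ≤ v (t / T) * f T t
        nlinarith [h0 T t]
      · rw [indicator_of_notMem ht]
        exact mul_nonneg (hv.nonneg _) (h0 T t)
  unfold EE at hT
  rw [one_div, inv_mul_lt_iff₀ hT0] at hT
  have h7 : c * volume.real ({t | c < f T t} ∩ Icc (α * T) (β * T)) ≤ c * (p * T) := by
    refine h2.trans (hT.le.trans (le_of_eq ?_))
    ring
  exact le_of_mul_le_mul_left h7 hcp

/-- (T1) If there is no zero in the window then `Re n(t)` is small. -/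
theorem T1 (RH : RiemannHypothesis) {χ₁ : ℝ → ℝ} (hχ : Win2 χ₁ 1) {δ : ℝ} (h1 : 1 / 4 < δ) (h2 : δ < 1 / 2)
    {ε p : ℝ} (hε : 0 < ε) (hp : 0 < p) : ∃ D₀ : ℝ, 1 ≤ D₀ ∧ ∀ D, D₀ ≤ D → ∀ FF : Filter ℝ, Hyp FF →
      ∀ α β : ℝ, 0 < α → α < β → β < 1 →
        Rare FF α β p (fun T => {t | (∀ i : PC.Z, π * δ / Real.log T ≤ |t - gZ i|) ∧ ε < |(nD χ₁ δ D T t).re|}) := by
  have hpi := Real.pi_pos
  have hδ : 0 < δ := by linarith
  obtain ⟨C₀, hC₀, hpsi⟩ := psi_tail hχ
  obtain ⟨CR, I⟩ := exists_inputs RH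
  refine ⟨max 1 (16 * π * C₀ / (ε * p)), le_max_left _ _, fun D hD FF hF α β hα hαβ hβ => ?_⟩
  have hD1 : 1 ≤ D := (le_max_left _ _).trans hD
  have hD2 : 16 * π * C₀ / (ε * p) ≤ D := (le_max_right _ _).trans hD
  have hD0 : 0 < D := by linarith
  have hW := win2_dil hχ hD1
  have hTF := H5.HF.testFn_psi hW δ
  obtain ⟨hψc, -, hψ0, -⟩ := H5.HF.psi_facts hW hδ
  obtain ⟨C, hC0, hC⟩ := hTF.decay
  obtain ⟨v, hv, hv1⟩ := wgt_ge hα hαβ
  have hlog : Tendsto Real.log atTop atTop := Real.tendsto_log_atTop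
  -- the explicit formula
  have hex := explicit_P I (poissonInput (zetaFacts RH) (by norm_num)) hW hδ hv
  rw [← psi_eq_win hW hδ] at hex
  have hcont : ∀ᶠ T in atTop, Continuous (fun t => (((δ : ℂ) - 2 * PP1 (H68.AH.win χ₁ D) δ D T t).re -
      SS gZ wZ (psi (H68.AH.win χ₁ D) δ) (Real.log T) t) ^ 2) := by
    filter_upwards [eventually_gt_atTop (0 : ℝ), hlog.eventually_ge_atTop 1] with T hT hL
    have c1 := continuous_PP1 (H68.AH.win χ₁ D) δ D hT
    have c2 := I.continuous_SS hTF hD0 hL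
    have c3 : Continuous (fun t => ((δ : ℂ) - 2 * PP1 (H68.AH.win χ₁ D) δ D T t).re) :=
      Complex.continuous_re.comp (continuous_const.sub (continuous_const.mul c1))
    exact (c3.sub c2).pow 2
  have R1 := rare_of_EE hv hv1 hcont (fun T t => sq_nonneg _) hex (c := (ε / 4) ^ 2) (p := p / 2)
    (by positivity) (by positivity)
  have R1' : Rare FF α β (p / 2) _ := R1.filter_mono hF.le
  -- far zeros
  have Efar : ∀ᶠ T : ℝ in atTop, C * (2 * (CR * (1 + T) ^ (1 / 4 : ℝ)) * (1 + (min α (1 - β) * T) ^ 2)⁻¹) ≤ ε / 4 := by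
    have hm : 0 < min α (1 - β) := lt_min hα (by linarith)
    have hCR := I.ord.CR_nonneg
    have E := eventually_ge_atTop (16 * C * CR / (ε * min α (1 - β) ^ 2))
    filter_upwards [E, eventually_ge_atTop (1 : ℝ)] with T hT hT1
    rw [div_le_iff₀ (by positivity)] at hT
    have h3 : (1 + T) ^ (1 / 4 : ℝ) ≤ 2 * T := by
      calc (1 + T) ^ (1 / 4 : ℝ) ≤ (1 + T) ^ (1 : ℝ) :=
            Real.rpow_le_rpow_of_exponent_le (by linarith) (by norm_num)
        _ = 1 + T := Real.rpow_one _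
        _ ≤ 2 * T := by linarith
    have h4 : (1 + (min α (1 - β) * T) ^ 2)⁻¹ ≤ ((min α (1 - β) * T) ^ 2)⁻¹ := by
      apply inv_anti₀ (by positivity)
      linarith
    calc C * (2 * (CR * (1 + T) ^ (1 / 4 : ℝ)) * (1 + (min α (1 - β) * T) ^ 2)⁻¹)
        ≤ C * (2 * (CR * (2 * T)) * ((min α (1 - β) * T) ^ 2)⁻¹) := by
          apply mul_le_mul_of_nonneg_left _ hC0
          apply mul_le_mul _ h4 (by positivity) (by positivity)
          apply mul_le_mul_of_nonneg_left _ (by norm_num)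
          exact mul_le_mul_of_nonneg_left h3 hCR
      _ = 4 * C * CR / (min α (1 - β) ^ 2 * T) := by
          field_simp
          ring
      _ ≤ ε / 4 := by
          rw [div_le_div_iff₀ (by positivity) (by norm_num)]
          nlinarith
  have hcnt := (I.count).eventually (gt_mem_nhds (show (1 : ℝ) < 2 by norm_num))
  filter_upwards [R1', Efar.filter_mono hF.le, hcnt.filter_mono hF.le,
    (hlog.eventually_ge_atTop (2 * π)).filter_mono hF.le, (eventually_gt_atTop (0 : ℝ)).filter_mono hF.le]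
    with T hR1 hfar hct hL2 hT
  set L := Real.log T with hLdef
  have hL : 0 < L := by linarith
  have hnorm : 0 < PC.norm T := by unfold PC.norm; rw [← hLdef]; positivity
  set Th : ℝ → ℝ := fun x => C₀ * ((1 + (D * (x - δ / 2)) ^ 2)⁻¹ + (1 + (D * (x + δ / 2)) ^ 2)⁻¹) with hTh
  have hTh0 : ∀ x, 0 ≤ Th x := fun x => by rw [hTh]; positivity
  set g : ℝ → ℝ := fun t => ∑ i ∈ FZ T, wZ i * Th (L * (t - gZ i) / (2 * π)) with hg
  have hg0 : ∀ t, 0 ≤ g t := fun t => Finset.sum_nonneg fun i _ => mul_nonneg (wZ_nonneg i) (hTh0 _)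
  have hThc : Continuous Th := by
    rw [hTh]
    have a1 : Continuous fun x : ℝ => (1 + (D * (x - δ / 2)) ^ 2)⁻¹ :=
      (by fun_prop : Continuous fun x : ℝ => 1 + (D * (x - δ / 2)) ^ 2).inv₀ fun x => by positivity
    have a2 : Continuous fun x : ℝ => (1 + (D * (x + δ / 2)) ^ 2)⁻¹ :=
      (by fun_prop : Continuous fun x : ℝ => 1 + (D * (x + δ / 2)) ^ 2).inv₀ fun x => by positivity
    exact continuous_const.mul (a1.add a2)
  have hgc : Continuous g := by rw [hg]; fun_prop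
  -- one term
  have hterm : ∀ i : PC.Z, Integrable (fun t => Th (L * (t - gZ i) / (2 * π))) ∧
      ∫ t, Th (L * (t - gZ i) / (2 * π)) = 4 * π ^ 2 * C₀ / (L * D) := by
    intro i
    have hc : 0 < D * L / (2 * π) := by positivity
    have k1 := int_cauchy hc (D * L / (2 * π) * gZ i + D * (δ / 2))
    have k2 := int_cauchy hc (D * L / (2 * π) * gZ i - D * (δ / 2))
    have e : (fun t => Th (L * (t - gZ i) / (2 * π))) = fun t =>
        C₀ * ((1 + (D * L / (2 * π) * t - (D * L / (2 * π) * gZ i + D * (δ / 2))) ^ 2)⁻¹ +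
          (1 + (D * L / (2 * π) * t - (D * L / (2 * π) * gZ i - D * (δ / 2))) ^ 2)⁻¹) := by
      funext t
      have a1 : D * (L * (t - gZ i) / (2 * π) - δ / 2) = D * L / (2 * π) * t - (D * L / (2 * π) * gZ i + D * (δ / 2)) := by
        ring
      have a2 : D * (L * (t - gZ i) / (2 * π) + δ / 2) = D * L / (2 * π) * t - (D * L / (2 * π) * gZ i - D * (δ / 2)) := by
        ring
      rw [hTh]
      show C₀ * ((1 + (D * (L * (t - gZ i) / (2 * π) - δ / 2)) ^ 2)⁻¹ + (1 + (D * (L * (t - gZ i) / (2 * π) + δ / 2)) ^ 2)⁻¹) = _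
      rw [a1, a2]
    rw [e]
    refine ⟨(k1.1.add k2.1).const_mul C₀, ?_⟩
    rw [integral_const_mul, integral_add k1.1 k2.1, k1.2, k2.2]
    field_simp
    ring
  have hgi : Integrable g := integrable_finsetSum _ fun i _ => (hterm i).1.const_mul _
  have hgint : ∫ t, g t = (∑ i ∈ FZ T, wZ i) * (4 * π ^ 2 * C₀ / (L * D)) := by
    rw [hg, integral_finsetSum _ fun i _ => (hterm i).1.const_mul _, Finset.sum_mul]
    refine Finset.sum_congr rfl fun i _ => ?_
    rw [integral_const_mul, (hterm i).2]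
  have hNle : ∑ i ∈ FZ T, wZ i ≤ 2 * PC.norm T := by
    have h3 : 1 / PC.norm T * ∑ i ∈ FZ T, wZ i < 2 := hct
    rw [one_div, inv_mul_lt_iff₀ hnorm] at h3
    linarith
  -- Markov
  have hmk : ε / 2 * volume.real {t | ε / 2 ≤ g t} ≤ ∫ t, g t :=
    mul_meas_ge_le_integral_of_nonneg (ae_of_all _ hg0) hgi (ε / 2)
  have hv2 : volume.real {t | ε / 2 ≤ g t} ≤ p / 2 * T := by
    have h4 : ε / 2 * volume.real {t | ε / 2 ≤ g t} ≤ ε / 2 * (p / 2 * T) := by
      refine hmk.trans ?_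
      rw [hgint]
      calc (∑ i ∈ FZ T, wZ i) * (4 * π ^ 2 * C₀ / (L * D)) ≤ (2 * PC.norm T) * (4 * π ^ 2 * C₀ / (L * D)) :=
            mul_le_mul_of_nonneg_right hNle (by positivity)
        _ = 4 * π * C₀ * T / D := by
            unfold PC.norm
            rw [← hLdef]
            field_simp
        _ ≤ ε / 2 * (p / 2 * T) := by
            rw [div_le_iff₀ (by positivity)] at hD2
            rw [div_le_iff₀ hD0]
            nlinarith
    exact le_of_mul_le_mul_left h4 (by positivity)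
  have hfin : volume {t | ε / 2 ≤ g t} ≠ ⊤ := by
    have := hgi.measure_norm_ge_lt_top (show 0 < ε / 2 by positivity)
    refine ne_top_of_le_ne_top this.ne (measure_mono fun t ht => ?_)
    show ε / 2 ≤ ‖g t‖
    rw [Real.norm_eq_abs, abs_of_nonneg (hg0 t)]
    exact ht
  -- the inclusion
  have hsub : {t | (∀ i : PC.Z, π * δ / L ≤ |t - gZ i|) ∧ ε < |(nD χ₁ δ D T t).re|} ∩ Icc (α * T) (β * T) ⊆
      ({t | (ε / 4) ^ 2 < (((δ : ℂ) - 2 * PP1 (H68.AH.win χ₁ D) δ D T t).re -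
        SS gZ wZ (psi (H68.AH.win χ₁ D) δ) L t) ^ 2} ∩ Icc (α * T) (β * T)) ∪ {t | ε / 2 ≤ g t} := by
    rintro t ⟨⟨hz, hn⟩, ht⟩
    by_cases hcase : (ε / 4) ^ 2 < (((δ : ℂ) - 2 * PP1 (H68.AH.win χ₁ D) δ D T t).re -
        SS gZ wZ (psi (H68.AH.win χ₁ D) δ) L t) ^ 2
    · exact Or.inl ⟨hcase, ht⟩
    · right
      rw [not_lt] at hcase
      have h5 : |((δ : ℂ) - 2 * PP1 (H68.AH.win χ₁ D) δ D T t).re -
          SS gZ wZ (psi (H68.AH.win χ₁ D) δ) L t| ≤ ε / 4 := abs_le_of_sq_le_sq hcase (by positivity)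
      have hn' : ε < |((δ : ℂ) - 2 * PP1 (H68.AH.win χ₁ D) δ D T t).re| := hn
      have htI : t ∈ Icc 0 T := ⟨by nlinarith [ht.1], by nlinarith [ht.2]⟩
      have h6 := I.ord.abs_Sout_le_edge hC0 hC hL2 htI
      have hm1 : min α (1 - β) * T ≤ T - t := by
        have : min α (1 - β) ≤ 1 - β := min_le_right _ _
        nlinarith [ht.2]
      have hm2 : min α (1 - β) * T ≤ t := by
        have : min α (1 - β) ≤ α := min_le_left _ _
        nlinarith [ht.1]
      have hm0 : 0 ≤ min α (1 - β) * T := mul_nonneg (le_min hα.le (by linarith)) hT.le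
      have i1 : (1 + (T - t) ^ 2)⁻¹ ≤ (1 + (min α (1 - β) * T) ^ 2)⁻¹ := by
        apply inv_anti₀ (by positivity)
        have := pow_le_pow_left₀ hm0 hm1 2
        linarith
      have i2 : (1 + (0 - t) ^ 2)⁻¹ ≤ (1 + (min α (1 - β) * T) ^ 2)⁻¹ := by
        apply inv_anti₀ (by positivity)
        have := pow_le_pow_left₀ hm0 hm2 2
        have e : (0 - t) ^ 2 = t ^ 2 := by ring
        rw [e]
        linarith
      have r1 := I.ord.RR_T_le hT.le
      have r2 := I.ord.RR_0_le hT.le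
      have r3 := I.ord.RR_nonneg T
      have r4 := I.ord.RR_nonneg 0
      have h7 : |SS gZ wZ (psi (H68.AH.win χ₁ D) δ) L t - Sin gZ wZ (FZ T) (psi (H68.AH.win χ₁ D) δ) L t| ≤ ε / 4 := by
        refine h6.trans (le_trans ?_ hfar)
        apply mul_le_mul_of_nonneg_left _ hC0
        have j1 : RR gZ wZ T * (1 + (T - t) ^ 2)⁻¹ ≤ (CR * (1 + T) ^ (1 / 4 : ℝ)) * (1 + (min α (1 - β) * T) ^ 2)⁻¹ :=
          mul_le_mul r1 i1 (by positivity) (r3.trans r1)
        have j2 : RR gZ wZ 0 * (1 + (0 - t) ^ 2)⁻¹ ≤ (CR * (1 + T) ^ (1 / 4 : ℝ)) * (1 + (min α (1 - β) * T) ^ 2)⁻¹ :=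
          mul_le_mul r2 i2 (by positivity) (r4.trans r2)
        linarith
      have h8 : Sin gZ wZ (FZ T) (psi (H68.AH.win χ₁ D) δ) L t ≤ g t := by
        unfold Sin
        rw [hg]
        refine Finset.sum_le_sum fun i _ => mul_le_mul_of_nonneg_left ?_ (wZ_nonneg i)
        apply hpsi D hD1 δ hδ
        rw [abs_div, abs_mul, abs_of_pos hL, abs_of_pos (show (0 : ℝ) < 2 * π by positivity),
          le_div_iff₀ (by positivity)]
        have h9 := hz i
        rw [div_le_iff₀ hL] at h9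
        linarith
      have hSS0 : 0 ≤ Sin gZ wZ (FZ T) (psi (H68.AH.win χ₁ D) δ) L t :=
        Finset.sum_nonneg fun i _ => mul_nonneg (wZ_nonneg i) (hψ0 _)
      show ε / 2 ≤ g t
      rw [abs_le] at h5 h7
      rcases abs_cases ((δ : ℂ) - 2 * PP1 (H68.AH.win χ₁ D) δ D T t).re with h | h
      · rw [h.1] at hn'
        linarith [h5.2, h7.2]
      · rw [h.1] at hn'
        linarith [h5.1, h7.1]
  have hR1' : volume.real ({t | (ε / 4) ^ 2 < (((δ : ℂ) - 2 * PP1 (H68.AH.win χ₁ D) δ D T t).re -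
        SS gZ wZ (psi (H68.AH.win χ₁ D) δ) L t) ^ 2} ∩ Icc (α * T) (β * T)) ≤ p / 2 * T := hR1
  refine (measureReal_mono hsub ?_).trans ((measureReal_union_le _ _).trans ?_)
  · refine ne_of_lt ((measure_union_le _ _).trans_lt (ENNReal.add_lt_top.2 ⟨?_, lt_top_iff_ne_top.2 hfin⟩))
    exact lt_of_le_of_lt (measure_mono inter_subset_right) (by rw [Real.volume_Icc]; exact ENNReal.ofReal_lt_top)
  · linarith

end Pool.Agent.H5.AH
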