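import Mathlib
import Pool.Agent.H5.AH.Sep
import Pool.Agent.H5.AH.T1
import Pool.Agent.H98.HF.Pc

/-!
# MP_103a5c_AH: for most `t` the real part of `n(t)` is almost in `[0, 1]`
-/

open MeasureTheory Set Filter Topology
open scoped Real ContDiff ComplexConjugate

namespace Pool.Agent.H5.AH

open Pool.Agent Pool.Agent.H6 Pool.Agent.H14.GP Pool.Agent.H24.HF Pool.Agent.H67.HF Pool.Agent.H68.AH Pool.Agent.H98.GP

theorem rare_union {FF : Filter ℝ} {α β p q : ℝ} {S S' : ℝ → Set ℝ} (h : Rare FF α β p S) (h' : Rare FF α β q S') :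
    Rare FF α β (p + q) (fun T => S T ∪ S' T) := by
  filter_upwards [h, h'] with T h1 h2
  have e : (S T ∪ S' T) ∩ Icc (α * T) (β * T) = (S T ∩ Icc (α * T) (β * T)) ∪ (S' T ∩ Icc (α * T) (β * T)) :=
    union_inter_distrib_right _ _ _
  rw [e, add_mul]
  exact (measureReal_union_le _ _).trans (add_le_add h1 h2)

theorem rare_mono {FF : Filter ℝ} {α β p : ℝ} {S S' : ℝ → Set ℝ} (h : Rare FF α β p S')
    (hs : ∀ᶠ T in FF, ∀ t ∈ Icc (α * T) (β * T), t ∈ S T → t ∈ S' T) : Rare FF α β p S := by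
  filter_upwards [h, hs] with T h1 h2
  refine (measureReal_mono ?_ ?_).trans h1
  · rintro t ⟨h3, h4⟩
    exact ⟨h2 t h4 h3, h4⟩
  · exact ne_top_of_le_ne_top (by rw [Real.volume_Icc]; exact ENNReal.ofReal_ne_top) (measure_mono inter_subset_right)

/-- Markov's inequality for functions with bounded moments -/
theorem rare_of_mom {F : ℝ → ℝ → ℝ} (hF : Mom F) {α β p : ℝ} (hα : 0 < α) (hαβ : α < β) (hp : 0 < p) :
    ∃ Λ : ℝ, 0 < Λ ∧ Rare atTop α β p (fun T => {t | Λ < |F T t|}) := by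
  obtain ⟨K, hK⟩ := hF.bdd 1 α β hα hαβ
  have hq : 0 < (|K| + 1) / p := by positivity
  refine ⟨Real.sqrt ((|K| + 1) / p), Real.sqrt_pos.2 hq, ?_⟩
  filter_upwards [hK, hF.cont, eventually_gt_atTop 0] with T h1 hc hT
  have hle : α * T ≤ β * T := mul_le_mul_of_nonneg_right hαβ.le hT.le
  rw [intervalIntegral.integral_of_le hle, ← integral_Icc_eq_integral_Ioc] at h1
  have hset : MeasurableSet ({t | Real.sqrt ((|K| + 1) / p) < |F T t|} ∩ Icc (α * T) (β * T)) :=
    ((isOpen_lt continuous_const hc.abs).measurableSet).inter measurableSet_Icc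
  have hfin : volume ({t | Real.sqrt ((|K| + 1) / p) < |F T t|} ∩ Icc (α * T) (β * T)) ≠ ⊤ :=
    ne_top_of_le_ne_top (by rw [Real.volume_Icc]; exact ENNReal.ofReal_ne_top) (measure_mono inter_subset_right)
  have hint : IntegrableOn (fun t => F T t ^ (2 * 1)) (Icc (α * T) (β * T)) :=
    (hc.pow _).continuousOn.integrableOn_Icc
  have h2 : (|K| + 1) / p * volume.real ({t | Real.sqrt ((|K| + 1) / p) < |F T t|} ∩ Icc (α * T) (β * T)) ≤
      ∫ t in Icc (α * T) (β * T), F T t ^ (2 * 1) := by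
    calc (|K| + 1) / p * volume.real ({t | Real.sqrt ((|K| + 1) / p) < |F T t|} ∩ Icc (α * T) (β * T))
        = ∫ t in {t | Real.sqrt ((|K| + 1) / p) < |F T t|} ∩ Icc (α * T) (β * T), (|K| + 1) / p := by
          rw [setIntegral_const, smul_eq_mul, mul_comm]
      _ ≤ ∫ t in {t | Real.sqrt ((|K| + 1) / p) < |F T t|} ∩ Icc (α * T) (β * T), F T t ^ (2 * 1) := by
          apply setIntegral_mono_on (integrableOn_const hfin) (hint.mono_set inter_subset_right) hset
          intro t ht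
          have h3 : Real.sqrt ((|K| + 1) / p) < |F T t| := ht.1
          have h4 := pow_le_pow_left₀ (Real.sqrt_nonneg _) h3.le 2
          rw [Real.sq_sqrt hq.le, sq_abs] at h4
          simpa using h4
      _ ≤ ∫ t in Icc (α * T) (β * T), F T t ^ (2 * 1) :=
          setIntegral_mono_set hint (ae_of_all _ fun t => by
            show 0 ≤ F T t ^ (2 * 1)
            rw [mul_one]
            exact sq_nonneg _) inter_subset_right.eventuallyLE
  have h5 : (|K| + 1) / p * volume.real ({t | Real.sqrt ((|K| + 1) / p) < |F T t|} ∩ Icc (α * T) (β * T)) ≤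
      (|K| + 1) / p * (p * T) := by
    have h6 : (|K| + 1) / p * (p * T) = (|K| + 1) * T := by field_simp
    rw [h6]
    have h7 := le_abs_self K
    nlinarith
  exact le_of_mul_le_mul_left h5 hq

/-- For most `t` the real part of `n(t)` is almost in `[0, 1]`. -/
theorem rare_strip (RH : RiemannHypothesis) {χ₁ : ℝ → ℝ} (hχ : Win2 χ₁ 1) {δ : ℝ} (h1 : 0 < δ) (h2 : δ < 1 / 2)
    {D : ℝ} (hD : 1 ≤ D) {FF : Filter ℝ} (hF : Hyp FF) {α β : ℝ} (hα : 0 < α) (hαβ : α < β) (hβ : β < 1)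
    {η q : ℝ} (hη : 0 < η) (hq : 0 < q) :
    Rare FF α β q (fun T => {t | 1 / 2 + η < |(nD χ₁ δ D T t).re - 1 / 2|}) := by
  have hpi := Real.pi_pos
  obtain ⟨CR, I⟩ := exists_inputs RH
  have hD0 : 0 < D := by linarith
  have hW := win2_dil hχ hD
  have hTF := H5.HF.testFn_psi hW δ
  obtain ⟨C, hC0, hcg⟩ := H98.HF.count_good I hW h1
  obtain ⟨v, hv, hv1⟩ := wgt_ge hα hαβ
  have hlog : Tendsto Real.log atTop atTop := Real.tendsto_log_atTop
  -- the explicit formula
  have hex := explicit_P I (poissonInput (zetaFacts RH) (by norm_num)) hW h1 hv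
  rw [← psi_eq_win hW h1] at hex
  have hcont : ∀ᶠ T in atTop, Continuous (fun t => (((δ : ℂ) - 2 * PP1 (H68.AH.win χ₁ D) δ D T t).re -
      SS gZ wZ (psi (H68.AH.win χ₁ D) δ) (Real.log T) t) ^ 2) := by
    filter_upwards [eventually_gt_atTop (0 : ℝ), hlog.eventually_ge_atTop 1] with T hT hL
    have c1 := continuous_PP1 (H68.AH.win χ₁ D) δ D hT
    have c2 := I.continuous_SS hTF hD0 hL
    have c3 : Continuous (fun t => ((δ : ℂ) - 2 * PP1 (H68.AH.win χ₁ D) δ D T t).re) :=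
      Complex.continuous_re.comp (continuous_const.sub (continuous_const.mul c1))
    exact (c3.sub c2).pow 2
  have R1 := rare_of_EE hv hv1 hcont (fun T t => sq_nonneg _) hex (c := (η / 2) ^ 2) (p := q / 3)
    (by positivity) (by positivity)
  have R1' : Rare FF α β (q / 3) _ := R1.filter_mono hF.le
  obtain ⟨Λ, hΛ, R2⟩ := rare_of_mom (mom_SS_ph0 I) hα hαβ (show 0 < q / 3 by positivity)
  have R2' : Rare FF α β (q / 3) _ := R2.filter_mono hF.le
  obtain ⟨Q, hQ1, hQ⟩ : ∃ Q : ℝ, 1 ≤ Q ∧ C / (1 + Q ^ 2) * Λ ≤ η / 2 := by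
    refine ⟨1 + 2 * C * Λ / η, by
      have : 0 ≤ 2 * C * Λ / η := by positivity
      linarith, ?_⟩
    obtain ⟨x, hx⟩ : ∃ x : ℝ, x = 2 * C * Λ / η := ⟨_, rfl⟩
    have hx0 : 0 ≤ x := by rw [hx]; positivity
    have hxe : x * η = 2 * C * Λ := by rw [hx]; field_simp
    rw [← hx, div_mul_eq_mul_div, div_le_iff₀ (by positivity)]
    nlinarith [sq_nonneg x]
  have R3 := rare_sep RH hF h1 h2 (show 0 < Q by linarith) hα hβ (show 0 < q / 3 by positivity)
  have R := rare_union (rare_union R1' R2') R3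
  rw [show q / 3 + q / 3 + q / 3 = q by ring] at R
  refine rare_mono R ?_
  filter_upwards [(hlog.eventually_ge_atTop (2 * π)).filter_mono hF.le] with T hL2 t ht hbad
  by_contra hcon
  simp only [mem_union, not_or, mem_ofPred_eq, not_not, not_lt] at hcon
  obtain ⟨⟨h5, h6⟩, h7⟩ := hcon
  have h8 : |((δ : ℂ) - 2 * PP1 (H68.AH.win χ₁ D) δ D T t).re -
      SS gZ wZ (psi (H68.AH.win χ₁ D) δ) (Real.log T) t| ≤ η / 2 := abs_le_of_sq_le_sq h5 (by positivity)
  obtain ⟨h9, h10⟩ := hcg Q hQ1 (Real.log T) hL2 t h7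
  have h11 : C / (1 + Q ^ 2) * SS gZ wZ ph0 (Real.log T) t ≤ η / 2 := by
    refine (mul_le_mul_of_nonneg_left ((le_abs_self _).trans h6) (by positivity)).trans hQ
  have h12 : 1 / 2 + η < |((δ : ℂ) - 2 * PP1 (H68.AH.win χ₁ D) δ D T t).re - 1 / 2| := hbad
  rw [abs_le] at h8
  rcases abs_cases (((δ : ℂ) - 2 * PP1 (H68.AH.win χ₁ D) δ D T t).re - 1 / 2) with h | h
  · rw [h.1] at h12
    linarith [h8.2]
  · rw [h.1] at h12
    linarith [h8.1]

end Pool.Agent.H5.AH
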